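import Mathlib
import Pool.Agent.Q51.VY.Cmp
import Pool.Agent.Q51.HG.SmoothCI

set_option autoImplicit false

/-!
# Campana points of 100 percent of the C-pairs over `ℚ`: no exceptional set for the sparse points

Let `F 1, …, F q` be forms of degrees `d 1, …, d q` in `n + 1` variables over `ℚ` and `C` a subset
of `{1, …, q}`. Let `V` be the complete intersection `F c = 0`, `c ∈ C`, in projective `n`-space (all
of it, if `C` is empty), and consider the C-pair `(V, Δ)`, `Δ = ∑_{b ∉ C} (1 - 1 / m b) D_b`, `D_b`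
the divisor `F b = 0` of `V`, with multiplicities `m b ∈ {1, 2, …} ∪ {∞}`. Assume that

  `∑_{b ∉ C} (1 - 1 / m b) d b + ∑_{c ∈ C} (d c + 1) > 2 n`,

that is, `deg (K_V + Δ) > dim V - 1` (for curves `V` this means that the pair is of general type).

For every `r` and every matrix `e` of exponents, such that `e b l` is zero or at least `m b`, there is
a nonzero polynomial `h` with integral coefficients in the coefficients of the forms, such that for ALL
forms with `h (F) ≠ 0` (that is, for 100 percent of the C-pairs `(V, Δ)`) the hypersurfaces are smooth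
and meet transversally, and for every finite set `S` of primes there is a constant `A` such that for
all `M ≥ 1` ALL Campana points `x` of `(V, Δ)` over the ring of `S`-integers, of the form

  `F b (x) = u b * ∏ l, z l ^ e b l`  (`b ∉ C`, `u b` an `S`-unit, the `z l` integers prime to `S`),

have height at most `A * M ^ A`, if the coordinates of `x` and the factors `z l` are sums of `r`
`S`-units with integer coefficients of absolute value at most `M`. There is no exceptional set.
In particular, these Campana points are finite in number for each `M`.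
-/

namespace Pool.Agent.Results.MP_464c42_nt.NoExceptionalSet

open MvPolynomial

/-- The indices of the coefficients of `q` forms of degrees `d i` in `n + 1` variables. -/
abbrev Index (n : ℕ) {q : ℕ} (d : Fin q → ℕ) : Type :=
  (i : Fin q) × {α : Fin (n + 1) →₀ ℕ // α.degree = d i}

/-- The value of the polynomial `h` at the coefficients of the forms `F i`. -/
noncomputable def valueAt {n q : ℕ} {d : Fin q → ℕ} {K : Type} [Field K]
    (h : MvPolynomial (Index n d) ℤ) (F : Fin q → MvPolynomial (Fin (n + 1)) K) : K :=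
  aeval (fun x : Index n d => coeff x.2.1 (F x.1)) h

/-- The hypersurfaces `F i = 0` are smooth and meet transversally: in every point of projective space
(over any field `Ω ⊇ K`) the gradients of those `F i` that vanish there are linearly independent. -/
def Transversal {n q : ℕ} {K : Type} [Field K] (F : Fin q → MvPolynomial (Fin (n + 1)) K) : Prop :=
  ∀ (Ω : Type) [Field Ω] [Algebra K Ω] (x : Fin (n + 1) → Ω), x ≠ 0 →
    LinearIndependent Ω (fun i : {i // aeval x (F i) = 0} => fun k => aeval x (pderiv k (F i.1)))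

/-- `x` is a primitive integer vector; every rational point of a projective space is represented by
exactly two of them, `x` and `-x` -/
def IsPrimitive {n : ℕ} (x : Fin (n + 1) → ℤ) : Prop :=
  Finset.univ.gcd x = 1

/-- `max |x_i|`, the multiplicative height of the point given by a primitive `x` -/
def height {n : ℕ} (x : Fin (n + 1) → ℤ) : ℕ :=
  Finset.univ.sup (fun i => (x i).natAbs)

/-- The value `F (x)`. -/
noncomputable def value {n : ℕ} (F : MvPolynomial (Fin (n + 1)) ℚ) (x : Fin (n + 1) → ℤ) : ℚ :=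
  eval (fun i => (x i : ℚ)) F

/-- `u` is an `S`-unit: plus or minus a product of powers (with integer exponents) of the primes in
`S` -/
def IsSUnit (S : Finset ℕ) (u : ℚ) : Prop :=
  ∃ (σ : ℤ) (e : ℕ → ℤ), (σ = 1 ∨ σ = -1) ∧ u = σ * ∏ p ∈ S, (p : ℚ) ^ e p

/-- The coordinates `x i` and the factors `z l` are sums of `r` `S`-units `t j` (the same for all of
them) with integer coefficients of absolute value at most `M`. -/
def IsShortSum {n ν : ℕ} (S : Finset ℕ) (r : ℕ) (M : ℝ) (x : Fin (n + 1) → ℤ) (z : Fin ν → ℤ) :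
    Prop :=
  ∃ (t : Fin r → ℚ) (a : Fin r → Fin (n + 1) → ℤ) (c : Fin r → Fin ν → ℤ),
    (∀ j, IsSUnit S (t j)) ∧ (∀ j i, |(a j i : ℝ)| ≤ M) ∧ (∀ j l, |(c j l : ℝ)| ≤ M) ∧
    (∀ i, (x i : ℚ) = ∑ j, t j * a j i) ∧ ∀ l, (z l : ℚ) = ∑ j, t j * c j l

theorem valueAt_eq {n q : ℕ} {d : Fin q → ℕ} {K : Type} [Field K]
    (h : MvPolynomial (Index n d) ℤ) (F : Fin q → MvPolynomial (Fin (n + 1)) K) :
    valueAt h F = Pool.Agent.Q51.HG.sp d F h := rfl

theorem transversal_of {n q : ℕ} {d : Fin q → ℕ} {h : MvPolynomial (Index n d) ℤ}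
    (hh : ∀ (L : Type) [Field L] (F : Fin q → MvPolynomial (Fin (n + 1)) L),
      (∀ i, (F i).IsHomogeneous (d i)) → Pool.Agent.Q51.HG.sp d F h ≠ 0 →
      ∀ x : Fin (n + 1) → L, x ≠ 0 →
      LinearIndependent L (fun i : {i // eval x (F i) = 0} => fun k =>
        eval x (pderiv k (F i.1))))
    {K : Type} [Field K] (F : Fin q → MvPolynomial (Fin (n + 1)) K)
    (hF : ∀ i, (F i).IsHomogeneous (d i)) (hv : valueAt h F ≠ 0) : Transversal F := by
  intro Ω _ _ x hx
  have h1 := hh Ω (fun i => map (algebraMap K Ω) (F i)) (fun i => (hF i).map _) (by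
    rw [Pool.Agent.Q51.HG.sp_map]
    exact (map_ne_zero _).2 hv) x hx
  have h2 : ∀ i k, eval x (pderiv k (map (algebraMap K Ω) (F i))) = aeval x (pderiv k (F i)) := by
    intro i k
    rw [pderiv_map, eval_map, ← aeval_def]
  have h3 : ∀ i, eval x (map (algebraMap K Ω) (F i)) = aeval x (F i) := by
    intro i
    rw [eval_map, ← aeval_def]
  simp only [h2] at h1
  refine (h1.comp (fun i : {i // aeval x (F i) = 0} => ⟨i.1, by rw [h3]; exact i.2⟩) ?_)
  intro i i' hii
  simpa [Subtype.ext_iff] using hii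

/-- **Main theorem.** The multiplicity `∞` is written as `m b = 0` (and `1 / 0 = 0` in Lean). For
100 percent of the C-pairs `(V, Δ)` over `ℚ` with `deg (K_V + Δ) > dim V - 1` all Campana points `x`
with a factorisation with exponents `e`, such that the coordinates of `x` and the factors are sums of
`r` `S`-units with coefficients at most `M`, have height at most `A * M ^ A`. -/
theorem result (n : ℕ) {q : ℕ} (d : Fin q → ℕ) (C : Finset (Fin q)) (m : Fin q → ℕ)
    (hgt : (2 * n : ℝ) < ∑ c ∈ C, ((d c : ℝ) + 1) +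
      ∑ b ∈ Finset.univ \ C, (1 - 1 / (m b : ℝ)) * d b)
    {ν : ℕ} (e : Fin q → Fin ν → ℕ)
    (he : ∀ b, b ∉ C → ∀ l, e b l ≠ 0 → m b ≠ 0 ∧ m b ≤ e b l)
    (he0 : ∀ l, ∃ b, b ∉ C ∧ e b l ≠ 0) (r : ℕ) :
    ∃ h : MvPolynomial (Index n d) ℤ, h ≠ 0 ∧
      ∀ F : Fin q → MvPolynomial (Fin (n + 1)) ℚ,
        (∀ i, (F i).IsHomogeneous (d i)) → valueAt h F ≠ 0 →
        Transversal F ∧
        ∀ (S : Finset ℕ), (∀ p ∈ S, p.Prime) → ∃ A : ℝ, ∀ M : ℝ, 1 ≤ M →
          ∀ (x : Fin (n + 1) → ℤ) (z : Fin ν → ℤ), IsPrimitive x →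
            (∀ c ∈ C, value (F c) x = 0) → (∀ l, z l ≠ 0 ∧ ∀ p ∈ S, ¬ (p : ℤ) ∣ z l) →
            (∀ b, b ∉ C → ∃ u : ℚ, IsSUnit S u ∧
              value (F b) x = u * ∏ l, (z l : ℚ) ^ e b l) →
            IsShortSum S r M x z → (height x : ℝ) ≤ A * M ^ A := by
  classical
  obtain ⟨h1, h10, h1s⟩ := Pool.Agent.Q51.HG.gen_snc n d
  obtain ⟨h2, h20, h2s⟩ := Pool.Agent.Q51.VY.pairsYC (n := n) d C e he0 Finset.univ m
    (fun b _ hb l hl => ⟨Nat.one_le_iff_ne_zero.2 (he b hb l hl).1, (he b hb l hl).2⟩) r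
  refine ⟨h1 * h2, mul_ne_zero h10 h20, fun F hF hv => ?_⟩
  rw [valueAt_eq, map_mul] at hv
  refine ⟨transversal_of h1s F hF (left_ne_zero_of_mul hv), ?_⟩
  intro S hS
  set b : Fin S.card → ℕ := fun v => (S.equivFin.symm v : ℕ) with hb
  have hbS : ∀ v, b v ∈ S := fun v => (S.equivFin.symm v).2
  have hbp : ∀ v, (b v).Prime := fun v => hS _ (hbS v)
  have hbi : Function.Injective b := by
    intro v v' h
    exact S.equivFin.symm.injective (Subtype.ext h)
  have hunit : ∀ u : ℚ, IsSUnit S u → Pool.Agent.TH551.SU.IsSU b u := by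
    rintro u ⟨σ, e, hσ, rfl⟩
    refine ⟨σ, fun v => e (b v), hσ, ?_⟩
    congr 1
    rw [← Finset.prod_coe_sort S (fun p => (p : ℚ) ^ e p), ← Equiv.prod_comp S.equivFin.symm]
  set κ : ℝ := ∑ c ∈ C, ((d c : ℝ) + 1) +
    ∑ b ∈ Finset.univ \ C, (1 - 1 / (m b : ℝ)) * d b - 2 * n with hκ
  have hκ0 : 0 < κ := by
    rw [hκ]
    linarith
  obtain ⟨δ, C0, hδ, hmain⟩ := h2s F hF (right_ne_zero_of_mul hv) S.card b hbp hbi 1 (κ / 2)
    le_rfl (by positivity)
  refine ⟨max (Real.exp (2 * C0 / κ)) (max (1 / δ) 1), fun M hM x z hx hV hz hFx hshort => ?_⟩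
  set A := max (Real.exp (2 * C0 / κ)) (max (1 / δ) 1) with hA
  have hA1 : (1 : ℝ) ≤ A := (le_max_right _ _).trans (le_max_right _ _)
  have hA2 : 1 / δ ≤ A := (le_max_left _ _).trans (le_max_right _ _)
  have hMA : (1 : ℝ) ≤ M ^ A := Real.one_le_rpow hM (by linarith)
  have hH1 : (1 : ℝ) ≤ (height x : ℝ) := by
    have := Pool.Agent.Y724.Vj.hh_pos x hx
    exact_mod_cast this
  by_cases hcase : M ≤ (height x : ℝ) ^ δ
  · have hex : ∀ b, ∃ u : ℚ, b ∉ C → IsSUnit S u ∧ value (F b) x = u * ∏ l, (z l : ℚ) ^ e b l := by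
      intro b
      by_cases hb : b ∈ C
      · exact ⟨1, fun h => absurd hb h⟩
      · obtain ⟨u, hu⟩ := hFx b hb
        exact ⟨u, fun _ => hu⟩
    choose u hu using hex
    have hsh : Pool.Agent.Q51.VY.Short3 b r 1 δ x z := by
      obtain ⟨t, a, c, e1, e2, e3, e4, e5⟩ := hshort
      refine ⟨t, a, c, fun j => hunit _ (e1 j), fun j i => ?_, fun j l => ?_, e4, e5⟩
      · rw [one_mul]
        exact (e2 j i).trans hcase
      · rw [one_mul]
        exact (e3 j l).trans hcase
    have key := hmain x u z hx hV (fun i hi => hunit _ (hu i hi).1) (fun i hi => (hu i hi).2)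
      (fun l => (hz l).1) (fun l v => (hz l).2 _ (hbS v)) hsh
    have h3 : ∑ l with ∃ i, i ∉ C ∧ i ∉ (Finset.univ : Finset (Fin q)) ∧ e i l ≠ 0,
        Real.log |(z l : ℝ)| = 0 := by
      rw [Finset.sum_filter]
      refine Finset.sum_eq_zero fun l _ => if_neg ?_
      rintro ⟨i, -, hi, -⟩
      exact hi (Finset.mem_univ i)
    rw [h3, zero_add] at key
    have h4 : (∑ c ∈ C, ((d c : ℝ) + 1) + ∑ i ∈ Finset.univ \ C,
        (d i : ℝ) * (1 - if i ∈ (Finset.univ : Finset (Fin q)) then 1 / (m i : ℝ) else 0) -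
          2 * n) = κ := by
      rw [hκ]
      congr 2
      refine Finset.sum_congr rfl fun i _ => ?_
      rw [if_pos (Finset.mem_univ i)]
      ring
    rw [h4] at key
    have h5 : Real.log (height x : ℝ) ≤ 2 * C0 / κ := by
      rw [le_div_iff₀ hκ0]
      change κ * Real.log (height x : ℝ) ≤ κ / 2 * Real.log (height x : ℝ) + C0 at key
      linarith
    have h6 : (height x : ℝ) ≤ Real.exp (2 * C0 / κ) := by
      rw [← Real.log_le_iff_le_exp (by linarith)]
      exact h5
    calc (height x : ℝ) ≤ A := h6.trans (le_max_left _ _)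
      _ = A * 1 := by ring
      _ ≤ A * M ^ A := mul_le_mul_of_nonneg_left hMA (by linarith)
  · push Not at hcase
    have h6 : (height x : ℝ) ≤ M ^ (1 / δ) := by
      have h7 := Real.rpow_le_rpow (by positivity) hcase.le (show 0 ≤ 1 / δ by positivity)
      rw [← Real.rpow_mul (by linarith), mul_one_div_cancel hδ.ne', Real.rpow_one] at h7
      exact h7
    calc (height x : ℝ) ≤ M ^ (1 / δ) := h6
      _ ≤ M ^ A := Real.rpow_le_rpow_of_exponent_le hM hA2
      _ = 1 * M ^ A := by ring
      _ ≤ A * M ^ A := mul_le_mul_of_nonneg_right hA1 (by positivity)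

end Pool.Agent.Results.MP_464c42_nt.NoExceptionalSet
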