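import Mathlib
import Pool.Agent.Q29.SE.AffNF

/-!
# Integral points given by short sums of power products, over all number fields

Let `U` be a closed subvariety of affine `(n+1)`-space over a number field `k` that is not
`A¹`-uniruled (not swept out by affine lines), for example `U = X \ D` affine with `(X, D)` of
general type. Let `r` and `D` be natural numbers. We prove that there are one proper closed subset
`Z = U ∩ {G = 0}` of `U`, defined over `k`, and one constant `C` such that for ALL number fields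
`K` containing `k`, of whatever degree, all `H, N ≥ 1` and all `t` in the ring of integers of `K`
with `|Norm t| ^ (1 / [K : ℚ]) ≥ (C H N) ^ C` the following holds. Every point `x` of `U` over `K`
outside `Z` for which

  `b x = ∑_{l ≤ r} v_l t^(m_l) ∏_i F_i(t)^(e_il)`

(`b ≠ 0` an integer of `K` of house at most `H`, `v_l` vectors of integers of `K` of house at most
`H`, arbitrary exponents `m_l`, any number of polynomials `F_i` over the ring of integers of `K`,
of total degree at most `D`, with coefficients of house at most `H`, whose constant terms are roots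
of unity, `∑_i e_il ≤ N` for all `l`) satisfies `house (b x_i) ≤ r H`.

Conversely, if `U` is `A¹`-uniruled, then there are no such `Z` and `C`, for some `r`, even with
`D = 0` and `N = 1`.
-/

set_option autoImplicit false

namespace Pool.Agent.Results.MP_464c42_nt.PowerIntegralPoints

open Polynomial NumberField

section defs

variable {n : ℕ}

/-- The ideal of the polynomial ring over `k` generated by the polynomials in `FF`. -/
noncomputable def ideal {k : Type} [Field k] (FF : Finset (MvPolynomial (Fin (n + 1)) (𝓞 k))) :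
    Ideal (MvPolynomial (Fin (n + 1)) k) :=
  Ideal.span ((MvPolynomial.map (algebraMap (𝓞 k) k)) ''
    (FF : Set (MvPolynomial (Fin (n + 1)) (𝓞 k))))

/-- The affine variety over `k` with the prime ideal `I` is `A¹`-uniruled: over some extension
field `L` of `k` there is a nonconstant polynomial map `p` from the affine line to the variety such
that `p(1)` is a generic point of the variety over `k`. -/
def A1Uniruled {k : Type} [Field k] (I : Ideal (MvPolynomial (Fin (n + 1)) k)) : Prop :=
  ∃ (L : Type) (_ : Field L) (_ : Algebra k L) (p : Fin (n + 1) → Polynomial L),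
    (∀ F ∈ I, MvPolynomial.aeval p F = 0) ∧
    (∀ G : MvPolynomial (Fin (n + 1)) k, G ∉ I →
      MvPolynomial.aeval (fun i => (p i).eval 1) G ≠ 0) ∧
    ∃ i, p i ≠ Polynomial.C ((p i).eval 1)

/-- Vectors `p` of polynomials of the form `p = ∑ v_l X^(m_l) ∏_i F_i^(e_il)`, `r` terms, where the
`v_l` are vectors of integers of `K` of house at most `H`, the exponents `m_l` are arbitrary, the
`F_i` (any number of them) are polynomials of total degree at most `D` with integral coefficients
of house at most `H` whose constant terms are roots of unity, and `∑_i e_il ≤ N` for each `l`.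
(`house` is the largest absolute value of the conjugates.) -/
def PowerVec {K : Type} [Field K] [NumberField K] (r D N : ℕ) (H : ℝ)
    (p : Fin (n + 1) → (𝓞 K)[X]) : Prop :=
  ∃ (q : ℕ) (F : Fin q → (𝓞 K)[X]) (m : Fin r → ℕ) (e : Fin r → Fin q → ℕ)
    (v : Fin r → Fin (n + 1) → 𝓞 K), ∑ i, (F i).natDegree ≤ D ∧
    (∀ i, ∃ j, 0 < j ∧ (F i).coeff 0 ^ j = 1) ∧
    (∀ i j, house (algebraMap (𝓞 K) K ((F i).coeff j)) ≤ H) ∧
    (∀ l, ∑ i, e l i ≤ N) ∧ (∀ l i, house (algebraMap (𝓞 K) K (v l i)) ≤ H) ∧
    ∀ i, p i = ∑ l, C (v l i) * (X ^ m l * ∏ j, F j ^ e l j)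

/-- The points `x` over `K`, off `G = 0`, of the affine variety over `k` given by the polynomials in
`FF` for which `b x` is integral and equal to `p(t)` with `p` as above. -/
def powerPoints {k : Type} [Field k] [NumberField k]
    (FF : Finset (MvPolynomial (Fin (n + 1)) (𝓞 k))) (G : MvPolynomial (Fin (n + 1)) k)
    (K : Type) [Field K] [NumberField K] [Algebra k K] (b t : 𝓞 K) (r D N : ℕ) (H : ℝ) :
    Set (Fin (n + 1) → K) :=
  {x | (∃ p : Fin (n + 1) → (𝓞 K)[X], PowerVec r D N H p ∧
      ∀ i, algebraMap (𝓞 K) K b * x i = algebraMap (𝓞 K) K ((p i).eval t)) ∧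
    (∀ F ∈ FF, MvPolynomial.aeval x (MvPolynomial.map (algebraMap (𝓞 k) k) F) = 0) ∧
    MvPolynomial.aeval x G ≠ 0}

/-- `|Norm t| ^ (1 / [K : ℚ])` is at least `(C H N) ^ C`. -/
def Large {K : Type} [Field K] [NumberField K] (C N : ℕ) (H : ℝ) (t : 𝓞 K) : Prop :=
  ((C * (H * N)) ^ C) ^ Module.finrank ℚ K ≤ |((Algebra.norm ℤ t : ℤ) : ℝ)|

end defs

theorem norm_nat {K : Type} [Field K] [NumberField K] (t : ℕ) :
    |((Algebra.norm ℤ (t : 𝓞 K) : ℤ) : ℝ)| = (t : ℝ) ^ Module.finrank ℚ K := by
  have h1 : (t : 𝓞 K) = algebraMap ℤ (𝓞 K) (t : ℤ) := by simp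
  rw [h1, Algebra.norm_algebraMap, RingOfIntegers.rank]
  push_cast
  rw [abs_pow, Nat.abs_cast]

theorem result (k : Type) [Field k] [NumberField k] (n : ℕ)
    (FF : Finset (MvPolynomial (Fin (n + 1)) (𝓞 k))) (hprime : (ideal FF).IsPrime) :
    ¬ A1Uniruled (ideal FF) ↔ ∀ r D : ℕ,
      ∃ G : MvPolynomial (Fin (n + 1)) k, G ∉ ideal FF ∧ ∃ C : ℕ,
        ∀ (K : Type) [Field K] [NumberField K] [Algebra k K] (H : ℝ) (N : ℕ) (b t : 𝓞 K),
          1 ≤ H → 1 ≤ N → b ≠ 0 → house (algebraMap (𝓞 K) K b) ≤ H → Large C N H t →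
          ∀ x ∈ powerPoints FF G K b t r D N H, ∀ i,
            house (algebraMap (𝓞 K) K b * x i) ≤ r * H := by
  refine ⟨fun hnu r D => ?_, fun hall hu => ?_⟩
  · obtain ⟨G, hGI, C, h⟩ := Pool.Agent.Q29.SE.one_aff k n FF hprime hnu r D
    refine ⟨G, hGI, C, ?_⟩
    rintro K _ _ _ H N b t hH hN hb hbH ht x ⟨⟨p, hp, hx⟩, hz, hoff⟩ i
    have hbK : algebraMap (𝓞 K) K b ≠ 0 :=
      (map_ne_zero_iff _ (FaithfulSMul.algebraMap_injective (𝓞 K) K)).mpr hb
    have hxx : (fun i => algebraMap (𝓞 K) K ((p i).eval t) / algebraMap (𝓞 K) K b) = x := by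
      funext i
      rw [← hx i, mul_div_cancel_left₀ _ hbK]
    have h1 := h K H N t hH hN ht b hb hbH (fun i => (p i).eval t) ⟨p, hp, fun _ => rfl⟩ (by
      intro F hF
      rw [hxx]
      exact hz F hF) (by
      show MvPolynomial.aeval (fun i => algebraMap (𝓞 K) K ((p i).eval t) /
        algebraMap (𝓞 K) K b) G ≠ 0
      rw [hxx]
      exact hoff) i
    rw [hx i]
    exact h1
  · obtain ⟨r, hr⟩ := Pool.Agent.Q29.SE.conv_aff k n FF hu
    obtain ⟨G, hGI, C, hall'⟩ := hall r 0
    obtain ⟨K, iK, iN, iA, H, b, hH, hb, hbH, h⟩ := hr G hGI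
    have hbK : algebraMap (𝓞 K) K b ≠ 0 :=
      (map_ne_zero_iff _ (FaithfulSMul.algebraMap_injective (𝓞 K) K)).mpr hb
    obtain ⟨t, htL, p, hp, hz, hoff, i, hi⟩ := h ((C * (H * 1)) ^ C) (r * H)
    have hlarge : Large C 1 H (t : 𝓞 K) := by
      unfold Large
      rw [norm_nat, Nat.cast_one]
      exact pow_le_pow_left₀ (by positivity) htL _
    have h1 := hall' K H 1 b t hH le_rfl hb hbH hlarge
      (fun i => algebraMap (𝓞 K) K ((p i).eval (t : 𝓞 K)) / algebraMap (𝓞 K) K b)
      ⟨⟨p, hp, fun i => mul_div_cancel₀ _ hbK⟩, hz, hoff⟩ i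
    rw [mul_div_cancel₀ _ hbK] at h1
    exact absurd h1 (not_le.mpr hi)

end Pool.Agent.Results.MP_464c42_nt.PowerIntegralPoints
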