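import Pool.Agent.Q183.UE.CFull

/-!
MP_464c42_nt: Campana points in sequences given by linear recurrences with constant coefficients.
-/

set_option autoImplicit false

namespace Pool.Agent.Results.MP_464c42_nt.RecurrentCampanaPoints

open Polynomial Pool.Agent.Q183.UE
open scoped LinearAlgebra.Projectivization

/-- The exponents `m i, m i + 1, ..., 2 m i - 1` of the `i`-th divisor of multiplicity `m i` (and
zeros; every exponent `≥ m i` is a sum of a multiple of `m i` and of one of these). If `m i = 0`,
which stands for the multiplicity infinity, there are no positive exponents. -/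
def campana {s : ℕ} (m : Fin s → ℕ) : Fin s → Fin (∑ i, m i) → ℕ :=
  fun i k => if (k : ℕ) < m i then m i + k else 0

/-- **Campana points and linear recurrences.** Let `N, D, s` be given and multiplicities
`m i ∈ {1, 2, ..., ∞}`, `i < s`; `∞` is written as `0`. There are functions `M > 0`, `C`, `R'` of `R`
such that for every field `K` of characteristic zero, every closed subset `X` of projective
`N`-space over `K` given by forms `F ∈ FF` of degree at most `D` and divisors `Q i = 0` of
degree at most `D` with the multiplicities `m i`:

(1) For every `R` there is a finite set `T` of irreducible closed subvarieties `Z` of `X` such that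

* (`CRuled`) the generic point of `Z` is on a nonconstant map `p` from the multiplicative group to
  the C-pair, over a finitely generated extension of `K`: polynomials `p` without common zeros
  different from `0`, the forms vanishing on `p` are those in `Z`, and
  `Q i (p) = c t ^ k ∏_{a < m i} g_a ^ (m i + a)`, `g_a` polynomials different from `0`, `c ≠ 0`;
* (`CDense`) the infinite sequences of points of `Z` as in the next item, of order at most
  `R' R`, over finite extensions of `K`, with infinitely many members, are Zariski-dense in `Z`;
* for every extension field `L` of `K` and every sequence of points `P 0, ..., P (l - 1)` of `X`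
  over `L`, outside of the divisors, with homogeneous coordinates which satisfy linear recurrences
  of order at most `R` with constant coefficients in `L`, which are coprime in the sense that
  `∑_j a_j(t) x_j(t) = c μ ^ t`, and for which `Q i (x t) = c μ ^ t ∏_{a < m i} g_a (t) ^ (m i + a)`,
  with sequences `a_j`, `g_a` which satisfy recurrences of the same kind (`CPts`): if `l ≥ C R` then
  `P (t + M R) = P t` whenever `P t` is not in one of the `Z ∈ T`, and in any case at most `C R`
  points of the sequence are not in one of the `Z ∈ T`.

(2) If the ideal of `FF` is prime the following are equivalent: the generic point of `X` is not on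
a map from the multiplicative group as above (`CCovered`); for every `R` there is one proper closed
subset `G = 0` of `X` with the property in the last item; for every `R` there is a proper closed
subset `G = 0` of `X` such that over every finite extension of `K` the number of points outside of
`G = 0` of the sequences of order at most `R` is bounded. -/
theorem result (N D s : ℕ) (m : Fin s → ℕ) : ∃ M C R' : ℕ → ℕ, (∀ R, 0 < M R) ∧
    ∀ (K : Type) [Field K] [CharZero K] (FF : Set (MvPolynomial (Fin (N + 1)) K))
      (Q : Fin s → MvPolynomial (Fin (N + 1)) K),
      (∀ F ∈ FF, ∃ e, e ≤ D ∧ F.IsHomogeneous e) → (∀ i, ∃ q, q ≤ D ∧ (Q i).IsHomogeneous q) →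
      (∀ R : ℕ, ∃ T : Set (Ideal (MvPolynomial (Fin (N + 1)) K)), T.Finite ∧
        (∀ Z ∈ T, CRuled FF Q (campana m) Z ∧ CDense Q (campana m) Z (R' R)) ∧
        ∀ (L : Type) [Field L] [Algebra K L] (l : ℕ) (P : ℕ → ℙ L (Fin (N + 1) → L)),
          CPts FF Q (campana m) L R l P →
          (C R ≤ l → ∀ t, t + M R < l → P (t + M R) = P t ∨ ∃ Z ∈ T, InI Z (P t)) ∧
          (P '' {t | t < l ∧ ∀ Z ∈ T, ¬ InI Z (P t)}).encard ≤ C R) ∧
      ((Ideal.span FF).IsPrime →
        [¬ CCovered FF Q (campana m),
        ∀ R : ℕ, ∃ G : MvPolynomial (Fin (N + 1)) K, (∃ d, G.IsHomogeneous d) ∧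
          G ∉ Ideal.span FF ∧
          ∀ (L : Type) [Field L] [Algebra K L] (l : ℕ) (P : ℕ → ℙ L (Fin (N + 1) → L)),
            CPts FF Q (campana m) L R l P →
            (C R ≤ l → ∀ t, t + M R < l → P (t + M R) = P t ∨ OnG G (P t)) ∧
            (P '' {t | t < l ∧ ¬ OnG G (P t)}).encard ≤ C R,
        ∀ R : ℕ, ∃ G : MvPolynomial (Fin (N + 1)) K, (∃ d, G.IsHomogeneous d) ∧
          G ∉ Ideal.span FF ∧
          ∀ (L : Type) [Field L] [Algebra K L] [FiniteDimensional K L], ∃ B : ℕ,
          ∀ (l : ℕ) (P : ℕ → ℙ L (Fin (N + 1) → L)),
            CPts FF Q (campana m) L R l P →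
            (P '' {t | t < l ∧ ¬ OnG G (P t)}).encard ≤ B].TFAE) :=
  cfull N D s (∑ i, m i) (campana m)

end Pool.Agent.Results.MP_464c42_nt.RecurrentCampanaPoints
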