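import Mathlib
import Pool.Agent.Q256.UC.Fin

set_option autoImplicit false

/-!
# Almost all C-pairs of general type with a Campana point of moderate height have exactly one

`F = (F_1, …, F_r)` runs through the systems of integral forms of degrees `d_1, …, d_r ≥ 1` in
`n + 1` variables with coefficients of absolute value at most `H`. The forms with index in `E` are
the equations of a variety `X` in projective space, the others cut out the boundary divisors `D_i`
of multiplicity `m_i ∈ {2, 3, …} ∪ {∞}`, so that `K_X + ∑ (1 - 1 / m_i) D_i` is the restriction of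
`O(-n - 1 + ∑_{i ∈ E} d_i + ∑_{i ∉ E} (1 - 1 / m_i) d_i)`. We assume that this number is positive,
which is the general type condition, and count the pairs with Campana points of height at most
`H ^ (D / (n + 1 + ∑_{i ∉ E} d_i / m_i) - η)`, where `D = d_1 + … + d_r`.
-/

namespace Pool.Agent.Results.MP_464c42_nt.UniqueCampanaPoint

open MvPolynomial

/-- The systems of `r` integral forms of degrees `d_i` in `n + 1` variables all of whose
coefficients have absolute value at most `H`. -/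
def Systems {r : ℕ} (n : ℕ) (d : Fin r → ℕ) (H : ℕ) :
    Set (Fin r → MvPolynomial (Fin (n + 1)) ℤ) :=
  {F | ∀ i, (F i).IsHomogeneous (d i) ∧ ∀ α, |(F i).coeff α| ≤ H}

/-- The coefficient of `d_i` in the canonical class of the pair: `1` for the equations (`i ∈ E`)
and `1 - 1 / m_i` for the boundary divisors (`i ∉ E`). Here `1 / ∞ = 0`, because
`ENat.toNat ⊤ = 0` and division by zero gives zero. -/
noncomputable def coef {r : ℕ} (E : Finset (Fin r)) (m : Fin r → ℕ∞) (i : Fin r) : ℝ :=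
  if i ∈ E then 1 else 1 - 1 / ((m i).toNat : ℝ)

/-- The Campana points of height `max |y_k| ≤ T` of the pair given by `F`, over the integers with
the primes in `S` inverted: primitive integral vectors `y` with `F_i(y) = 0` for `i ∈ E`, such
that for `i ∉ E` the value `F_i(y)` is nonzero and for all primes `p` not in `S` its `p`-adic
valuation is `0` or at least `m_i`. Every point of projective space is represented by exactly two
primitive vectors, `y` and `-y`. -/
def Points {n r : ℕ} (E : Finset (Fin r)) (S : Finset ℕ) (m : Fin r → ℕ∞)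
    (F : Fin r → MvPolynomial (Fin (n + 1)) ℤ) (T : ℕ) : Set (Fin (n + 1) → ℤ) :=
  {y | Finset.univ.gcd y = 1 ∧ (∀ k, |y k| ≤ T) ∧ (∀ i ∈ E, eval y (F i) = 0) ∧
    ∀ i, i ∉ E → eval y (F i) ≠ 0 ∧ ∀ p : ℕ, p.Prime → p ∉ S →
      emultiplicity (p : ℤ) (eval y (F i)) = 0 ∨ m i ≤ emultiplicity (p : ℤ) (eval y (F i))}

open Pool.Agent.Q256.UP in
theorem prim_iff {n : ℕ} (y : Fin (n + 1) → ℤ) : Finset.univ.gcd y = 1 ↔ IsPrim y := by
  constructor
  · intro h
    have h1 : Ideal.span (Set.range y) = ⊤ := by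
      have h2 : Ideal.span (Set.range y) = Ideal.span {Finset.univ.gcd y} := by
        apply le_antisymm
        · rw [Ideal.span_le]
          rintro _ ⟨k, rfl⟩
          exact Ideal.mem_span_singleton.2 (Finset.gcd_dvd (Finset.mem_univ k))
        · obtain ⟨g, hg⟩ := (IsPrincipalIdealRing.principal (Ideal.span (Set.range y))).principal
          rw [hg]
          rw [Ideal.submodule_span_eq, Ideal.span_singleton_le_span_singleton]
          apply Finset.dvd_gcd
          intro k _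
          have : y k ∈ Ideal.span (Set.range y) := Ideal.subset_span ⟨k, rfl⟩
          rw [hg] at this
          exact Ideal.mem_span_singleton.1 this
      rw [h2, h, Ideal.span_singleton_one]
    exact Ideal.mem_span_range_iff_exists_fun.1 ((Ideal.eq_top_iff_one _).1 h1)
  · rintro ⟨a, ha⟩
    have h1 : Finset.univ.gcd y ∣ 1 := by
      rw [← ha]
      exact Finset.dvd_sum (fun k hk => (Finset.gcd_dvd hk).mul_left _)
    have h2 : normalize (Finset.univ.gcd y) = Finset.univ.gcd y := Finset.normalize_gcd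
    rw [← h2]
    exact normalize_eq_one.2 (isUnit_of_dvd_one h1)

theorem full_iff (S : Finset ℕ) (m : ℕ∞) (hm : 2 ≤ m) (v : ℤ) :
    Pool.Agent.Q256.UC.Full S m.toNat v ↔ v ≠ 0 ∧ ∀ p : ℕ, p.Prime → p ∉ S →
      emultiplicity (p : ℤ) v = 0 ∨ m ≤ emultiplicity (p : ℤ) v := by
  unfold Pool.Agent.Q256.UC.Full
  have hm0 : m ≠ 0 := by
    rintro rfl
    exact absurd hm (by norm_num)
  constructor
  · rintro ⟨h0, h⟩
    refine ⟨h0, fun p hp hpS => ?_⟩
    by_cases hd : (p : ℤ) ∣ v
    · right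
      obtain ⟨h1, h2⟩ := h p hp hpS hd
      have hT : m ≠ ⊤ := by
        rintro rfl
        exact h1 ENat.toNat_top
      rw [← ENat.natCast_toNat hT]
      exact pow_dvd_iff_le_emultiplicity.1 h2
    · left
      exact emultiplicity_eq_zero.2 hd
  · rintro ⟨h0, h⟩
    refine ⟨h0, fun p hp hpS hd => ?_⟩
    rcases h p hp hpS with h1 | h1
    · exact absurd hd (emultiplicity_eq_zero.1 h1)
    · have hfin : FiniteMultiplicity (p : ℤ) v :=
        Int.finiteMultiplicity_iff.2 ⟨by simpa using hp.one_lt.ne', h0⟩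
      have hT : m ≠ ⊤ := by
        rintro rfl
        exact (finiteMultiplicity_iff_emultiplicity_ne_top.1 hfin) (top_le_iff.1 h1)
      refine ⟨?_, ?_⟩
      · intro h2
        rcases ENat.toNat_eq_zero.1 h2 with h3 | h3
        · exact hm0 h3
        · exact hT h3
      · rw [← ENat.natCast_toNat hT] at h1
        exact pow_dvd_iff_le_emultiplicity.2 h1

theorem points_iff {n r : ℕ} (E : Finset (Fin r)) (S : Finset ℕ) (m : Fin r → ℕ∞)
    (hm : ∀ i, i ∉ E → 2 ≤ m i) (F : Fin r → MvPolynomial (Fin (n + 1)) ℤ) (T : ℕ) :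
    Points E S m F T = Pool.Agent.Q256.UC.Pts E S (fun i => (m i).toNat) F T := by
  ext y
  constructor
  · rintro ⟨h1, h2, h3, h4⟩
    exact ⟨⟨(prim_iff y).1 h1, h3, fun i hi => (full_iff S (m i) (hm i hi) _).2 (h4 i hi)⟩, h2⟩
  · rintro ⟨⟨h1, h3, h4⟩, h2⟩
    exact ⟨(prim_iff y).2 h1, h2, h3, fun i hi => (full_iff S (m i) (hm i hi) _).1 (h4 i hi)⟩

theorem coef_eq {r : ℕ} (E : Finset (Fin r)) (m : Fin r → ℕ∞) (i : Fin r) :
    coef E m i = 1 - Pool.Agent.Q256.UC.wgt E (fun i => (m i).toNat) i := by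
  unfold coef Pool.Agent.Q256.UC.wgt Pool.Agent.Q256.UC.inv
  split_ifs with h1 h2
  · ring
  · have h3 : (m i).toNat = 0 := h2
    rw [h3]; simp
  · rfl

open Pool.Agent.Q256.UP in
theorem minor {n : ℕ} (y z : Fin (n + 1) → ℤ) (hy : IsPrim y) (hz : IsPrim z) (h1 : z ≠ y)
    (h2 : z ≠ -y) : ∃ a b, y a * z b - y b * z a ≠ 0 := by
  by_contra hcon
  push Not at hcon
  obtain ⟨a, ha⟩ := hy
  obtain ⟨b, hb⟩ := hz
  have h3 : ∀ j, z j = (∑ k, a k * z k) * y j := by
    intro j
    rw [Finset.sum_mul]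
    calc z j = (∑ k, a k * y k) * z j := by rw [ha, one_mul]
      _ = ∑ k, a k * z k * y j := by
        rw [Finset.sum_mul]
        refine Finset.sum_congr rfl (fun k _ => ?_)
        have := hcon k j
        linear_combination a k * this
  have h4 : (∑ k, b k * y k) * (∑ k, a k * z k) = 1 := by
    rw [Finset.sum_mul]
    calc ∑ k, b k * y k * (∑ k, a k * z k) = ∑ k, b k * z k := by
          refine Finset.sum_congr rfl (fun k _ => ?_)
          rw [h3 k]; ring
      _ = 1 := hb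
  rcases Int.isUnit_iff.1 (IsUnit.of_mul_eq_one _ (by rw [mul_comm]; exact h4)) with h5 | h5
  · apply h1
    funext j
    rw [h3 j, h5, one_mul]
  · apply h2
    funext j
    rw [h3 j, h5, Pi.neg_apply]; ring

/-- Let `d_1, …, d_r ≥ 1`, let `E` be a set of indices and let `m_i ∈ {2, 3, …} ∪ {∞}` for
`i ∉ E`. Put `c_i = 1` for `i ∈ E`, `c_i = 1 - 1 / m_i` for `i ∉ E`, `N_i = binom(n + d_i, n)`,
`D = ∑ d_i` and `M = ∑ (N_i - c_i)`, and assume `∑ c_i d_i > n + 1` (general type). Let `η > 0`.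
There are `δ, C > 0` such that for all `H ≥ 2` and `1 ≤ T ≤ H ^ (D / (n + 1 + ∑ (1 - c_i) d_i) - η)`
the number of systems with coefficients of absolute value at most `H` which have a Campana point
of height at most `T` lies between `H ^ M / C` and `C * H ^ (M + η)`, and among these systems all
but a proportion `C * H ^ (-δ)` have exactly one such point, and this point has height at most
`H ^ η`. -/
theorem result (n r : ℕ) (E : Finset (Fin r)) (S : Finset ℕ) (m : Fin r → ℕ∞)
    (hm : ∀ i, i ∉ E → 2 ≤ m i) (d : Fin r → ℕ) (hd : ∀ i, 1 ≤ d i)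
    (hgt : (n : ℝ) + 1 < ∑ i, coef E m i * d i) (η : ℝ) (hη : 0 < η) :
    ∃ δ C : ℝ, 0 < δ ∧ 0 < C ∧ ∀ H T : ℕ, 2 ≤ H → 1 ≤ T →
      (T : ℝ) ≤ (H : ℝ) ^ ((∑ i, (d i : ℝ)) / (n + 1 + ∑ i, (1 - coef E m i) * d i) - η) →
      (H : ℝ) ^ (∑ i, (((n + d i).choose n : ℝ) - coef E m i)) ≤
        C * Nat.card {F | F ∈ Systems n d H ∧ (Points E S m F T).Nonempty} ∧
      (Nat.card {F | F ∈ Systems n d H ∧ (Points E S m F T).Nonempty} : ℝ) ≤
        C * (H : ℝ) ^ (∑ i, (((n + d i).choose n : ℝ) - coef E m i) + η) ∧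
      (Nat.card {F | F ∈ Systems n d H ∧ ∃ y ∈ Points E S m F T, ∃ z ∈ Points E S m F T,
          z ≠ y ∧ z ≠ -y} : ℝ) ≤
        C * (H : ℝ) ^ (-δ) * Nat.card {F | F ∈ Systems n d H ∧ (Points E S m F T).Nonempty} ∧
      (Nat.card {F | F ∈ Systems n d H ∧ ∃ y ∈ Points E S m F T, ∃ k, (H : ℝ) ^ η < |(y k : ℝ)|}
          : ℝ) ≤
        C * (H : ℝ) ^ (-δ) * Nat.card {F | F ∈ Systems n d H ∧ (Points E S m F T).Nonempty} := by
  have e0 : ∀ i, coef E m i = 1 - Pool.Agent.Q256.UC.wgt E (fun i => (m i).toNat) i :=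
    fun i => coef_eq E m i
  have e1 : ∑ i, (1 - coef E m i) * (d i : ℝ) =
      ∑ i, (d i : ℝ) * Pool.Agent.Q256.UC.wgt E (fun i => (m i).toNat) i :=
    Finset.sum_congr rfl (fun i _ => by rw [e0]; ring)
  have e2 : ∑ i, (((n + d i).choose n : ℝ) - coef E m i) =
      ∑ i, ((n + d i).choose n : ℝ) -
        ∑ i, (1 - Pool.Agent.Q256.UC.wgt E (fun i => (m i).toNat) i) := by
    rw [← Finset.sum_sub_distrib]
    exact Finset.sum_congr rfl (fun i _ => by rw [e0])
  rw [e1, e2]
  simp only [points_iff E S m hm]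
  obtain ⟨δ, C, hδ, hC, h⟩ := Pool.Agent.Q256.UC.final E S (fun i => (m i).toNat) d hd
    (by simpa only [e0] using hgt) η hη
  refine ⟨δ, C, hδ, hC, fun H T hH hT hTH => ?_⟩
  obtain ⟨h1, h2, h3, h4⟩ := h H T hH hT hTH
  have hone : Pool.Agent.Q256.UC.One n E S (fun i => (m i).toNat) d H T =
      {F | F ∈ Systems n d H ∧
        (Pool.Agent.Q256.UC.Pts E S (fun i => (m i).toNat) F T).Nonempty} := rfl
  rw [hone] at h1 h2 h3 h4
  refine ⟨h1, h2, le_trans ?_ h3, ?_⟩
  · simp only [Nat.card_coe_set_eq]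
    have hle := Set.ncard_le_ncard (s := {F | F ∈ Systems n d H ∧
      ∃ y ∈ Pool.Agent.Q256.UC.Pts E S (fun i => (m i).toNat) F T,
      ∃ z ∈ Pool.Agent.Q256.UC.Pts E S (fun i => (m i).toNat) F T, z ≠ y ∧ z ≠ -y})
      (t := Pool.Agent.Q256.UC.Two n E S (fun i => (m i).toNat) d H T) ?_
      (Pool.Agent.Q256.UC.two_finite E S _ d H T)
    · exact_mod_cast hle
    · rintro F ⟨hF, y, hy, z, hz, hne1, hne2⟩
      exact ⟨hF, y, hy, z, hz, minor y z hy.1.1 hz.1.1 hne1 hne2⟩
  · obtain ⟨R, hR⟩ : ∃ R : ℕ, R = ⌊(H : ℝ) ^ η⌋₊ := ⟨_, rfl⟩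
    have hR1 : (R : ℝ) ≤ (H : ℝ) ^ η := by rw [hR]; exact Nat.floor_le (by positivity)
    have hR2 : (H : ℝ) ^ η ≤ R + 1 := by rw [hR]; exact (Nat.lt_floor_add_one _).le
    refine le_trans ?_ (h4 R hR2)
    simp only [Nat.card_coe_set_eq]
    have hle := Set.ncard_le_ncard (s := {F | F ∈ Systems n d H ∧
      ∃ y ∈ Pool.Agent.Q256.UC.Pts E S (fun i => (m i).toNat) F T,
      ∃ k, (H : ℝ) ^ η < |(y k : ℝ)|})
      (t := Pool.Agent.Q256.UC.Lrg n E S (fun i => (m i).toNat) d H R T) ?_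
      (Pool.Agent.Q256.UC.lrg_finite E S _ d H R T)
    · exact_mod_cast hle
    · rintro F ⟨hF, y, hy, k, hk⟩
      refine ⟨hF, y, hy, k, ?_⟩
      have h5 : (R : ℝ) < |(y k : ℝ)| := lt_of_le_of_lt hR1 hk
      exact_mod_cast h5

end Pool.Agent.Results.MP_464c42_nt.UniqueCampanaPoint
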